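import Pool.Agent.TH630.Fill.Final

/-!
# Super-Euclidean filling functions of stratified nilpotent Lie groups

Every non-abelian stratified nilpotent Lie group has a super-Euclidean filling function in some
dimension. The group is given in triangular polynomial coordinates `NilLaw n`, its Lie algebra is
the tangent space at the identity `0` with the bracket `bracket G`.
-/

open scoped ENNReal

namespace Pool.Agent.Results.MP_b8ac35_gt.StratifiedFilling

open Pool.Agent.TH630

variable {n : ℕ}

/-- The Lie bracket on the tangent space at the identity `0`: the antisymmetrised bilinear part of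
the group law `x y = x + y + b (x, y) + (terms of degree at least three)`. -/
noncomputable def bracket (G : NilLaw n) (v w : Fin n → ℝ) : Fin n → ℝ := fun i =>
  ∑ j, ∑ k, MvPolynomial.coeff (Finsupp.single (Sum.inl j) 1 + Finsupp.single (Sum.inr k) 1) (G.P i)
    * (v j * w k - w j * v k)

/-- A stratification `V 1, …, V s` of the Lie algebra: it is the direct sum of the `V i`,
`[V 1, V i] = V (i + 1)` for `1 ≤ i < s`, `[V 1, V s] = 0` and `V s` is not zero. -/
structure Stratification (G : NilLaw n) where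
  /-- the number of layers -/
  s : ℕ
  pos : 1 ≤ s
  /-- the layers -/
  V : ℕ → Submodule ℝ (Fin n → ℝ)
  internal : DirectSum.IsInternal (fun i : Fin s => V (i + 1))
  bracket_eq : ∀ i, 1 ≤ i → i < s →
    Submodule.span ℝ {u | ∃ v ∈ V 1, ∃ w ∈ V i, u = bracket G v w} = V (i + 1)
  last : ∀ v ∈ V 1, ∀ w ∈ V s, bracket G v w = 0
  ne_bot : V s ≠ ⊥

/-- `f ≼ g`: there is `C > 0` with `f r ≤ C g (C r + C) + C r + C` for all `r ≥ 0`. -/
def Dominated (f : ℝ → ℝ≥0∞) (g : ℝ → ℝ) : Prop :=
  ∃ C : ℝ, 0 < C ∧ ∀ r : ℝ, 0 ≤ r → f r ≤ ENNReal.ofReal (C * g (C * r + C) + C * r + C)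

theorem dominated_iff {f : ℝ → ℝ≥0∞} {α : ℝ} (hα : 0 ≤ α)
    (h : Dominated f (fun r => r ^ α)) :
    ∃ C : ℝ, 0 < C ∧ ∀ r : ℝ, 0 ≤ r → f r ≤ ENNReal.ofReal (C * (C * r) ^ α + C * r + C) := by
  obtain ⟨C, hC, hf⟩ := h
  have h2C : 0 ≤ (2 * C) ^ α := Real.rpow_nonneg (by positivity) _
  refine ⟨2 * C + C * (2 * C) ^ α, by positivity, fun r hr => ?_⟩
  refine (hf r hr).trans (ENNReal.ofReal_le_ofReal ?_)
  set D : ℝ := 2 * C + C * (2 * C) ^ α with hD
  have hD0 : 0 < D := by positivity
  have h1 : (C * r + C) ^ α ≤ (2 * C * r) ^ α + (2 * C) ^ α := by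
    rcases le_total r 1 with h | h
    · have : (C * r + C) ^ α ≤ (2 * C) ^ α :=
        Real.rpow_le_rpow (by positivity) (by nlinarith) hα
      have h3 : 0 ≤ (2 * C * r) ^ α := Real.rpow_nonneg (by positivity) _
      linarith
    · have : (C * r + C) ^ α ≤ (2 * C * r) ^ α :=
        Real.rpow_le_rpow (by positivity) (by nlinarith) hα
      linarith
  have h2 : (2 * C * r) ^ α ≤ (D * r) ^ α := by
    apply Real.rpow_le_rpow (by positivity) _ hα
    apply mul_le_mul_of_nonneg_right _ hr
    rw [hD]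
    nlinarith
  have h4 : 0 ≤ (D * r) ^ α := Real.rpow_nonneg (by positivity) _
  have h5 : C ≤ D := by rw [hD]; nlinarith
  have h6 : C + C * (2 * C) ^ α ≤ D := by rw [hD]; linarith
  calc C * (C * r + C) ^ α + C * r + C
      ≤ C * ((D * r) ^ α + (2 * C) ^ α) + D * r + C := by
        have : C * (C * r + C) ^ α ≤ C * ((D * r) ^ α + (2 * C) ^ α) := by
          apply mul_le_mul_of_nonneg_left _ hC.le
          linarith
        nlinarith
    _ = C * (D * r) ^ α + D * r + (C + C * (2 * C) ^ α) := by ring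
    _ ≤ D * (D * r) ^ α + D * r + D := by nlinarith

theorem coeff_swap (p : MvPolynomial (Fin n ⊕ Fin n) ℝ)
    (h : ∀ x y : Fin n → ℝ, MvPolynomial.eval (Sum.elim x y) p = MvPolynomial.eval (Sum.elim y x) p)
    (j k : Fin n) :
    MvPolynomial.coeff (Finsupp.single (Sum.inl j) 1 + Finsupp.single (Sum.inr k) 1) p
      = MvPolynomial.coeff (Finsupp.single (Sum.inl k) 1 + Finsupp.single (Sum.inr j) 1) p := by
  have h1 : MvPolynomial.rename Sum.swap p = p := by
    apply MvPolynomial.funext
    intro x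
    rw [MvPolynomial.eval_rename]
    have e1 : x = Sum.elim (fun i => x (Sum.inl i)) (fun i => x (Sum.inr i)) := by
      funext i
      cases i <;> rfl
    have e2 : x ∘ Sum.swap = Sum.elim (fun i => x (Sum.inr i)) (fun i => x (Sum.inl i)) := by
      funext i
      cases i <;> rfl
    rw [e2, h]
    conv_rhs => rw [e1]
  have h2 : (Finsupp.single (Sum.inl k : Fin n ⊕ Fin n) 1 + Finsupp.single (Sum.inr j) 1
      : Fin n ⊕ Fin n →₀ ℕ)
      = Finsupp.mapDomain Sum.swap (Finsupp.single (Sum.inl j) 1 + Finsupp.single (Sum.inr k) 1) := by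
    rw [Finsupp.mapDomain_add, Finsupp.mapDomain_single, Finsupp.mapDomain_single, add_comm]
    rfl
  rw [h2]
  conv_rhs => rw [← h1]
  rw [MvPolynomial.coeff_rename_mapDomain]
  exact Sum.swap_leftInverse.injective

theorem bracket_eq_zero (G : NilLaw n) (hG : ∀ x y, G.mul x y = G.mul y x) (v w : Fin n → ℝ) :
    bracket G v w = 0 := by
  funext i
  have h : ∀ x y : Fin n → ℝ, MvPolynomial.eval (Sum.elim x y) (G.P i)
      = MvPolynomial.eval (Sum.elim y x) (G.P i) := by
    intro x y
    have := congrFun (hG x y) i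
    simp only [NilLaw.mul, triMul] at this
    linarith
  have h2 := coeff_swap (G.P i) h
  unfold bracket
  simp only [mul_sub, Finset.sum_sub_distrib, Pi.zero_apply]
  rw [sub_eq_zero, Finset.sum_comm]
  apply Finset.sum_congr rfl
  intro j _
  apply Finset.sum_congr rfl
  intro k _
  rw [h2 k j]
  ring

/-- Every stratified nilpotent Lie group with at least two layers has a super-Euclidean filling
function in some dimension `k` with `1 ≤ k ≤ n - 1`. -/
theorem result (G : NilLaw n) (S : Stratification G) (hs : 2 ≤ S.s)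
    (B : Matrix (Fin n) (Fin n) ℝ) (hB : B.PosDef) :
    ∃ k : ℕ, 1 ≤ k ∧ k + 1 ≤ n ∧
      ¬ Dominated (G.FV B k) (fun r => r ^ (((k : ℝ) + 1) / k)) := by
  have hG : ∃ x y, G.mul x y ≠ G.mul y x := by
    by_contra hcon
    push Not at hcon
    apply S.ne_bot
    have h1 := S.bracket_eq (S.s - 1) (by omega) (by omega)
    rw [show S.s - 1 + 1 = S.s by omega] at h1
    rw [← h1, Submodule.span_eq_bot]
    rintro u ⟨v, _, w, _, rfl⟩
    exact bracket_eq_zero G hcon v w
  obtain ⟨k, hk1, hk2, hk3⟩ := main_theorem G hG B hB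
  refine ⟨k, hk1, hk2, fun hd => hk3 ?_⟩
  exact dominated_iff (by positivity) hd

end Pool.Agent.Results.MP_b8ac35_gt.StratifiedFilling
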